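import Mathlib

set_option autoImplicit false

open Real Set Filter Topology

namespace Pool.Agent.X100.LogMod

noncomputable def bb (β : ℝ) : ℝ := exp (-(β + 1))

noncomputable def Lam (β s : ℝ) : ℝ := s * (-log s) ^ β

noncomputable def rho (β s : ℝ) : ℝ := (-log s) ^ (-β)

noncomputable def EE (β t : ℝ) : ℝ := if 0 < t then exp (-(t ^ (-(1 / β)))) else 0

lemma EE_of_pos {β t : ℝ} (ht : 0 < t) : EE β t = exp (-(t ^ (-(1 / β)))) := if_pos ht

lemma EE_zero {β : ℝ} : EE β 0 = 0 := by simp [EE]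

lemma EE_pos {β t : ℝ} (ht : 0 < t) : 0 < EE β t := by rw [EE_of_pos ht]; exact exp_pos _

lemma EE_nonneg (β t : ℝ) : 0 ≤ EE β t := by
  unfold EE; split_ifs
  · exact (exp_pos _).le
  · exact le_rfl

lemma EE_lt_one {β t : ℝ} (ht : 0 < t) : EE β t < 1 := by
  rw [EE_of_pos ht, exp_lt_one_iff]
  have : 0 < t ^ (-(1 / β)) := rpow_pos_of_pos ht _
  linarith

lemma log_EE {β t : ℝ} (ht : 0 < t) : -log (EE β t) = t ^ (-(1 / β)) := by
  rw [EE_of_pos ht, log_exp, neg_neg]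

lemma neglog_pos {s : ℝ} (h0 : 0 < s) (h1 : s < 1) : 0 < -log s := by
  have := log_neg h0 h1; linarith

lemma rho_pos {β s : ℝ} (h0 : 0 < s) (h1 : s < 1) : 0 < rho β s :=
  rpow_pos_of_pos (neglog_pos h0 h1) _

lemma Lam_pos {β s : ℝ} (h0 : 0 < s) (h1 : s < 1) : 0 < Lam β s :=
  mul_pos h0 (rpow_pos_of_pos (neglog_pos h0 h1) _)

lemma Lam_zero {β : ℝ} : Lam β 0 = 0 := by simp [Lam]

lemma rho_mul_Lam {β s : ℝ} (h0 : 0 < s) (h1 : s < 1) : rho β s * Lam β s = s := by
  unfold rho Lam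
  have := neglog_pos h0 h1
  rw [rpow_neg this.le]
  have h2 : (-log s) ^ β ≠ 0 := (rpow_pos_of_pos this _).ne'
  field_simp

lemma rho_EE {β t : ℝ} (hβ : 0 < β) (ht : 0 < t) : rho β (EE β t) = t := by
  unfold rho
  rw [log_EE ht, ← rpow_mul ht.le]
  have : -(1 / β) * -β = 1 := by field_simp
  rw [this, rpow_one]

lemma EE_rho {β s : ℝ} (hβ : 0 < β) (h0 : 0 < s) (h1 : s < 1) : EE β (rho β s) = s := by
  rw [EE_of_pos (rho_pos h0 h1)]
  unfold rho
  rw [← rpow_mul (neglog_pos h0 h1).le]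
  have : -β * -(1 / β) = 1 := by field_simp
  rw [this, rpow_one, neg_neg, exp_log h0]

lemma EE_lt {β t t' : ℝ} (hβ : 0 < β) (ht : 0 ≤ t) (h : t < t') : EE β t < EE β t' := by
  rcases eq_or_lt_of_le ht with h0 | h0
  · rw [← h0, EE_zero]; exact EE_pos (by linarith)
  · rw [EE_of_pos h0, EE_of_pos (h0.trans h), exp_lt_exp, neg_lt_neg_iff]
    exact rpow_lt_rpow_of_neg h0 h (by rw [neg_lt_zero]; positivity)

lemma EE_le {β t t' : ℝ} (hβ : 0 < β) (ht : 0 ≤ t) (h : t ≤ t') : EE β t ≤ EE β t' := by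
  rcases eq_or_lt_of_le h with h0 | h0
  · rw [h0]
  · exact (EE_lt hβ ht h0).le

lemma lt_of_EE_lt {β t t' : ℝ} (hβ : 0 < β) (ht' : 0 ≤ t') (h : EE β t < EE β t') : t < t' := by
  by_contra hcon
  push Not at hcon
  exact absurd h (not_lt.mpr (EE_le hβ ht' hcon))

lemma le_of_EE_le {β t t' : ℝ} (hβ : 0 < β) (ht' : 0 ≤ t') (h : EE β t ≤ EE β t') : t ≤ t' := by
  by_contra hcon
  push Not at hcon
  exact absurd h (not_le.mpr (EE_lt hβ ht' hcon))

lemma bb_pos (β : ℝ) : 0 < bb β := exp_pos _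

lemma bb_lt_one {β : ℝ} (hβ : 0 < β) : bb β < 1 := by
  unfold bb; rw [exp_lt_one_iff]; linarith

lemma neglog_bb (β : ℝ) : -log (bb β) = β + 1 := by unfold bb; rw [log_exp, neg_neg]

lemma neglog_ge {β s : ℝ} (h0 : 0 < s) (h : s ≤ bb β) : β + 1 ≤ -log s := by
  rw [← neglog_bb β, neg_le_neg_iff]
  exact log_le_log h0 h

/-- `Lam` is monotone on `[0, b]`. -/
lemma Lam_mono {β s s' : ℝ} (hβ : 0 < β) (h0 : 0 ≤ s) (h : s ≤ s') (h1 : s' ≤ bb β) :
    Lam β s ≤ Lam β s' := by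
  rcases eq_or_lt_of_le h0 with h2 | h2
  · rw [← h2, Lam_zero]
    rcases eq_or_lt_of_le (h0.trans h) with h3 | h3
    · rw [← h3, Lam_zero]
    · exact (Lam_pos h3 (h1.trans_lt (bb_lt_one hβ))).le
  have h3 : 0 < s' := h2.trans_le h
  set l := -log s with hl
  set l' := -log s' with hl'
  have hl1 : β + 1 ≤ l' := neglog_ge h3 h1
  have hl'0 : 0 < l' := by linarith
  have hll : l' ≤ l := by rw [hl, hl', neg_le_neg_iff]; exact log_le_log h2 h
  -- (l / l')^β ≤ exp (l - l') = s'/s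
  have h4 : (l / l') ^ β ≤ exp (l - l') := by
    have h5 : l / l' ≤ exp ((l - l') / l') := by
      have := add_one_le_exp ((l - l') / l')
      have h6 : (l - l') / l' + 1 = l / l' := by field_simp; ring
      linarith
    calc (l / l') ^ β ≤ (exp ((l - l') / l')) ^ β :=
          rpow_le_rpow (div_nonneg (by linarith) hl'0.le) h5 hβ.le
      _ = exp ((l - l') / l' * β) := by rw [← exp_mul]
      _ ≤ exp (l - l') := by
          rw [exp_le_exp, div_mul_eq_mul_div, div_le_iff₀ hl'0]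
          have : 0 ≤ l - l' := by linarith
          nlinarith
  have h5 : exp (l - l') = s' / s := by
    rw [hl, hl', sub_neg_eq_add, add_comm, ← sub_eq_add_neg, exp_sub, exp_log h3, exp_log h2]
  rw [h5, div_rpow (by linarith) hl'0.le] at h4
  unfold Lam
  rw [← hl, ← hl']
  have h6 : 0 < l' ^ β := rpow_pos_of_pos hl'0 _
  rw [div_le_div_iff₀ h6 h2] at h4
  linarith

lemma EE_mul_Lam {β t : ℝ} (hβ : 0 < β) (ht : 0 < t) : t * Lam β (EE β t) = EE β t := by
  have := rho_mul_Lam (β := β) (s := EE β t) (EE_pos (β := β) ht) (EE_lt_one (β := β) ht)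
  rwa [rho_EE hβ ht] at this

/-- the first component of the map -/
noncomputable def K (β x s : ℝ) : ℝ := x * Lam β (max (EE β |x|) s)

/-- the first component of the inverse -/
noncomputable def H (β y s : ℝ) : ℝ := y / Lam β (max |y| s)

noncomputable def aa (β : ℝ) : ℝ := rho β (bb β)

lemma aa_pos {β : ℝ} (hβ : 0 < β) : 0 < aa β := rho_pos (bb_pos β) (bb_lt_one hβ)

lemma EE_aa {β : ℝ} (hβ : 0 < β) : EE β (aa β) = bb β := EE_rho hβ (bb_pos β) (bb_lt_one hβ)

lemma aux1 {β y s : ℝ} (hβ : 0 < β) (hs0 : 0 ≤ s) (hy : |y| < bb β) (hs : s < bb β) :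
    max (EE β |H β y s|) s = max |y| s := by
  have hr1 : max |y| s < 1 := (max_lt hy hs).trans (bb_lt_one hβ)
  rcases le_or_gt |y| s with h | h
  · rw [max_eq_right h]
    rcases eq_or_lt_of_le hs0 with h0 | h0
    · have : y = 0 := abs_nonpos_iff.mp (by rw [← h0] at h; exact h)
      subst this
      simp [H, EE, hs0]
    · refine max_eq_right ?_
      have hs1 : s < 1 := hs.trans (bb_lt_one hβ)
      have h1 : |H β y s| ≤ rho β s := by
        unfold H
        rw [max_eq_right h, abs_div, abs_of_pos (Lam_pos h0 hs1), div_le_iff₀ (Lam_pos h0 hs1),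
          rho_mul_Lam h0 hs1]
        exact h
      calc EE β |H β y s| ≤ EE β (rho β s) := EE_le hβ (abs_nonneg _) h1
        _ = s := EE_rho hβ h0 hs1
  · rw [max_eq_left h.le]
    have hy0 : 0 < |y| := hs0.trans_lt h
    have hy1 : |y| < 1 := hy.trans (bb_lt_one hβ)
    have h1 : |H β y s| = rho β |y| := by
      unfold H
      rw [max_eq_left h.le, abs_div, abs_of_pos (Lam_pos hy0 hy1), div_eq_iff (Lam_pos hy0 hy1).ne',
        rho_mul_Lam hy0 hy1]
    rw [h1, EE_rho hβ hy0 hy1]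
    exact max_eq_left h.le

lemma K_H {β y s : ℝ} (hβ : 0 < β) (hs0 : 0 ≤ s) (hy : |y| < bb β) (hs : s < bb β) :
    K β (H β y s) s = y := by
  unfold K
  rw [aux1 hβ hs0 hy hs]
  unfold H
  by_cases h : max |y| s = 0
  · have : |y| = 0 := le_antisymm (h ▸ le_max_left _ _) (abs_nonneg _)
    rw [abs_eq_zero] at this
    subst this; simp
  · have h0 : 0 < max |y| s := lt_of_le_of_ne (hs0.trans (le_max_right _ _)) (Ne.symm h)
    have h1 : max |y| s < 1 := (max_lt hy hs).trans (bb_lt_one hβ)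
    exact div_mul_cancel₀ _ (Lam_pos h0 h1).ne'

lemma H_lt {β y s : ℝ} (hβ : 0 < β) (hs0 : 0 ≤ s) (hy : |y| < bb β) (hs : s < bb β) :
    |H β y s| < aa β := by
  refine lt_of_EE_lt hβ (aa_pos hβ).le ?_
  rw [EE_aa hβ]
  calc EE β |H β y s| ≤ max (EE β |H β y s|) s := le_max_left _ _
    _ = max |y| s := aux1 hβ hs0 hy hs
    _ < bb β := max_lt hy hs

lemma aux2 {β x s : ℝ} (hβ : 0 < β) (hs0 : 0 ≤ s) (hx : |x| < aa β) (hs : s < bb β) :
    max |K β x s| s = max (EE β |x|) s := by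
  have hE : EE β |x| < bb β := by rw [← EE_aa hβ]; exact EE_lt hβ (abs_nonneg _) hx
  rcases le_or_gt (EE β |x|) s with h | h
  · rw [max_eq_right h]
    refine max_eq_right ?_
    unfold K
    rw [max_eq_right h]
    rcases eq_or_lt_of_le hs0 with h0 | h0
    · rw [← h0, Lam_zero]; simp
    · have hs1 : s < 1 := hs.trans (bb_lt_one hβ)
      rw [abs_mul, abs_of_pos (Lam_pos h0 hs1)]
      have h1 : |x| ≤ rho β s := by
        refine le_of_EE_le hβ (rho_pos h0 hs1).le ?_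
        rwa [EE_rho hβ h0 hs1]
      calc |x| * Lam β s ≤ rho β s * Lam β s := mul_le_mul_of_nonneg_right h1 (Lam_pos h0 hs1).le
        _ = s := rho_mul_Lam h0 hs1
  · have hE0 : 0 < EE β |x| := hs0.trans_lt h
    have hx0 : 0 < |x| := by
      rcases eq_or_lt_of_le (abs_nonneg x) with h1 | h1
      · rw [← h1, EE_zero] at hE0; exact absurd hE0 (lt_irrefl _)
      · exact h1
    have h1 : |K β x s| = EE β |x| := by
      unfold K
      rw [max_eq_left h.le, abs_mul, abs_of_pos (Lam_pos hE0 (EE_lt_one hx0)), EE_mul_Lam hβ hx0]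
    rw [h1]

lemma H_K {β x s : ℝ} (hβ : 0 < β) (hs0 : 0 ≤ s) (hx : |x| < aa β) (hs : s < bb β) :
    H β (K β x s) s = x := by
  unfold H
  rw [aux2 hβ hs0 hx hs]
  unfold K
  have hE : EE β |x| < bb β := by rw [← EE_aa hβ]; exact EE_lt hβ (abs_nonneg _) hx
  by_cases h : max (EE β |x|) s = 0
  · have h1 : EE β |x| = 0 := le_antisymm (h ▸ le_max_left _ _) (EE_nonneg _ _)
    have h2 : x = 0 := by
      by_contra hx0
      exact absurd h1 (EE_pos (abs_pos.mpr hx0)).ne'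
    subst h2; simp
  · have h0 : 0 < max (EE β |x|) s := lt_of_le_of_ne (hs0.trans (le_max_right _ _)) (Ne.symm h)
    have h1 : max (EE β |x|) s < 1 := (max_lt hE hs).trans (bb_lt_one hβ)
    exact mul_div_cancel_right₀ _ (Lam_pos h0 h1).ne'

lemma K_lt {β x s : ℝ} (hβ : 0 < β) (hs0 : 0 ≤ s) (hx : |x| < aa β) (hs : s < bb β) :
    |K β x s| < bb β := by
  have hE : EE β |x| < bb β := by rw [← EE_aa hβ]; exact EE_lt hβ (abs_nonneg _) hx
  calc |K β x s| ≤ max |K β x s| s := le_max_left _ _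
    _ = max (EE β |x|) s := aux2 hβ hs0 hx hs
    _ < bb β := max_lt hE hs

/-- bound for the inverse -/
lemma H_le {β y s : ℝ} (hβ : 0 < β) (hs0 : 0 ≤ s) (hy : |y| < bb β) (hs : s < bb β)
    {ε : ℝ} (hε : 0 < ε) (h : max |y| s < EE β ε) : |H β y s| < ε := by
  refine lt_of_EE_lt hβ hε.le ?_
  calc EE β |H β y s| ≤ max (EE β |H β y s|) s := le_max_left _ _
    _ = max |y| s := aux1 hβ hs0 hy hs
    _ < EE β ε := h

lemma rpow_mul_exp_bdd (p : ℝ) (hp : 0 ≤ p) : ∃ C : ℝ, 0 < C ∧ ∀ u : ℝ, 0 ≤ u → u ^ p * exp (-u) ≤ C := by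
  obtain ⟨N, hN⟩ := exists_nat_ge p
  refine ⟨(N.factorial : ℝ), by exact_mod_cast N.factorial_pos, fun u hu => ?_⟩
  have h1 : u ^ p ≤ N.factorial * exp u := by
    rcases le_or_gt u 1 with h | h
    · have h2 : u ^ p ≤ 1 := rpow_le_one hu h hp
      have h3 : 1 ≤ exp u := one_le_exp hu
      have h4 : (1 : ℝ) ≤ N.factorial := by exact_mod_cast Nat.one_le_iff_ne_zero.mpr N.factorial_ne_zero
      nlinarith
    · have h2 : u ^ p ≤ u ^ (N : ℝ) := rpow_le_rpow_of_exponent_le h.le hN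
      rw [rpow_natCast] at h2
      have h3 := pow_div_factorial_le_exp u hu N
      rw [div_le_iff₀ (by exact_mod_cast N.factorial_pos)] at h3
      linarith
  rw [exp_neg, ← div_eq_mul_inv, div_le_iff₀ (exp_pos u)]
  exact h1

lemma hasDerivAt_EE {β t : ℝ} (ht : 0 < t) :
    HasDerivAt (EE β) (1 / β * t ^ (-(1 / β) - 1) * EE β t) t := by
  have h1 : HasDerivAt (fun t : ℝ => exp (-(t ^ (-(1 / β)))))
      (exp (-(t ^ (-(1 / β)))) * (-(-(1 / β) * t ^ (-(1 / β) - 1)))) t :=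
    ((hasDerivAt_rpow_const (Or.inl ht.ne')).neg).exp
  have h2 : EE β =ᶠ[𝓝 t] fun t : ℝ => exp (-(t ^ (-(1 / β)))) := by
    filter_upwards [lt_mem_nhds ht] with y hy
    exact EE_of_pos hy
  refine (h1.congr_of_eventuallyEq h2).congr_deriv ?_
  rw [EE_of_pos ht]
  ring

/-- `EE` is Lipschitz on `[0, ∞)`. -/
lemma EE_lip {β : ℝ} (hβ : 0 < β) : ∃ C : ℝ, 0 < C ∧ ∀ t t' : ℝ, 0 ≤ t → t ≤ t' →
    EE β t' - EE β t ≤ C * (t' - t) := by
  obtain ⟨C1, hC1, h1⟩ := rpow_mul_exp_bdd (1 + β) (by linarith)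
  obtain ⟨C2, hC2, h2⟩ := rpow_mul_exp_bdd β hβ.le
  -- derivative bound
  have hder : ∀ t, 0 < t → |deriv (EE β) t| ≤ 1 / β * C1 := by
    intro t ht
    rw [(hasDerivAt_EE ht).deriv]
    have h3 := h1 (t ^ (-(1 / β))) (rpow_nonneg ht.le _)
    rw [← EE_of_pos ht, ← rpow_mul ht.le] at h3
    have h4 : -(1 / β) * (1 + β) = -(1 / β) - 1 := by field_simp; ring
    rw [h4] at h3
    rw [abs_of_nonneg (by
      have := EE_nonneg β t
      have := rpow_nonneg ht.le (-(1 / β) - 1)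
      positivity), mul_assoc]
    exact mul_le_mul_of_nonneg_left h3 (by positivity)
  have hlin : ∀ t, 0 < t → EE β t ≤ C2 * t := by
    intro t ht
    have h3 := h2 (t ^ (-(1 / β))) (rpow_nonneg ht.le _)
    rw [← EE_of_pos ht, ← rpow_mul ht.le] at h3
    have h4 : -(1 / β) * β = -1 := by field_simp
    rw [h4, rpow_neg_one, inv_mul_le_iff₀ ht] at h3
    linarith
  refine ⟨1 / β * C1 + C2, by positivity, fun t t' ht htt => ?_⟩
  rcases eq_or_lt_of_le htt with h0 | h0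
  · rw [h0]; simp
  rcases eq_or_lt_of_le ht with h3 | h3
  · subst h3
    rw [EE_zero, sub_zero, sub_zero]
    have := hlin t' h0
    have : 0 ≤ 1 / β * C1 * t' := by positivity
    nlinarith
  · have h4 := (convex_Ioi (0 : ℝ)).norm_image_sub_le_of_norm_deriv_le (f := EE β)
      (C := 1 / β * C1) (fun x hx => (hasDerivAt_EE hx).differentiableAt)
      (fun x hx => hder x hx) (show t ∈ Ioi 0 from h3) (show t' ∈ Ioi 0 from h3.trans h0)
    rw [Real.norm_eq_abs, Real.norm_eq_abs, abs_of_pos (by linarith : 0 < t' - t)] at h4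
    have h5 := le_abs_self (EE β t' - EE β t)
    have : 0 ≤ C2 * (t' - t) := by
      have : 0 < t' - t := by linarith
      positivity
    linarith

lemma K_eq_max {β x s : ℝ} (hβ : 0 < β) (hx0 : 0 ≤ x) (hx : x ≤ aa β) (hs0 : 0 ≤ s)
    (hs : s ≤ bb β) : K β x s = max (EE β x) (x * Lam β s) := by
  unfold K
  rw [abs_of_nonneg hx0]
  have hE : EE β x ≤ bb β := by rw [← EE_aa hβ]; exact EE_le hβ hx0 hx
  rcases eq_or_lt_of_le hx0 with h0 | h0
  · rw [← h0]; simp [EE_zero]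
  rcases le_total (EE β x) s with h | h
  · rw [max_eq_right h]
    have h1 := Lam_mono hβ (EE_nonneg β x) h hs
    have h2 := EE_mul_Lam hβ h0
    rw [max_eq_right]
    nlinarith
  · rw [max_eq_left h, EE_mul_Lam hβ h0]
    have h1 := Lam_mono hβ hs0 h hE
    have h2 := EE_mul_Lam hβ h0
    rw [max_eq_left]
    nlinarith

lemma K_lip_s {β x s s' : ℝ} (hβ : 0 < β) (hx0 : 0 ≤ x) (hx : x ≤ aa β) (hs0 : 0 ≤ s)
    (hss : s ≤ s') (hs : s' ≤ bb β) : |K β x s' - K β x s| ≤ s' - s := by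
  rcases eq_or_lt_of_le hx0 with h0 | h0
  · rw [← h0]; simp [K]; linarith
  have hE : EE β x ≤ bb β := by rw [← EE_aa hβ]; exact EE_le hβ hx0 hx
  have hE0 := EE_pos (β := β) h0
  unfold K
  rw [abs_of_nonneg hx0]
  set r := max (EE β x) s with hr
  set r' := max (EE β x) s' with hr'
  have hrr : r ≤ r' := max_le_max le_rfl hss
  have hr0 : 0 < r := hE0.trans_le (le_max_left _ _)
  have hr1 : r' ≤ bb β := max_le hE hs
  have hdr : r' - r ≤ s' - s := by
    rcases le_total (EE β x) s with h | h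
    · rw [hr, hr', max_eq_right h, max_eq_right (h.trans hss)]
    · rw [hr, max_eq_left h]
      rcases le_total (EE β x) s' with h' | h'
      · rw [hr', max_eq_right h']; linarith
      · rw [hr', max_eq_left h']; linarith
  have hm := Lam_mono hβ hr0.le hrr hr1
  rw [← mul_sub, abs_mul, abs_of_pos h0, abs_of_nonneg (by linarith)]
  -- Lam r' - Lam r ≤ (r' - r) (-log r)^β
  have hl : 0 < -log r := neglog_pos hr0 ((hrr.trans hr1).trans_lt (bb_lt_one hβ))
  have hl' : 0 < -log r' := neglog_pos (hr0.trans_le hrr) (hr1.trans_lt (bb_lt_one hβ))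
  have h1 : Lam β r' - Lam β r ≤ (r' - r) * (-log r) ^ β := by
    unfold Lam
    have h2 : (-log r') ^ β ≤ (-log r) ^ β := by
      refine rpow_le_rpow hl'.le ?_ hβ.le
      rw [neg_le_neg_iff]; exact log_le_log hr0 hrr
    have h3 : 0 < r' := hr0.trans_le hrr
    nlinarith
  have h2 : x * (-log r) ^ β ≤ 1 := by
    have h3 : (-log r) ^ β ≤ (-log (EE β x)) ^ β := by
      refine rpow_le_rpow hl.le ?_ hβ.le
      rw [neg_le_neg_iff]; exact log_le_log hE0 (le_max_left _ _)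
    rw [log_EE h0, ← rpow_mul h0.le] at h3
    have h4 : -(1 / β) * β = -1 := by field_simp
    rw [h4, rpow_neg_one] at h3
    calc x * (-log r) ^ β ≤ x * x⁻¹ := mul_le_mul_of_nonneg_left h3 hx0
      _ = 1 := mul_inv_cancel₀ h0.ne'
  have h3 : 0 ≤ r' - r := by linarith
  calc x * (Lam β r' - Lam β r) ≤ x * ((r' - r) * (-log r) ^ β) :=
        mul_le_mul_of_nonneg_left h1 hx0
    _ = (x * (-log r) ^ β) * (r' - r) := by ring
    _ ≤ 1 * (r' - r) := mul_le_mul_of_nonneg_right h2 h3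
    _ ≤ s' - s := by linarith

lemma K_lip_x {β : ℝ} (hβ : 0 < β) : ∃ C : ℝ, 0 < C ∧ ∀ x x' s : ℝ, 0 ≤ x → x ≤ x' → x' ≤ aa β →
    0 ≤ s → s ≤ bb β → |K β x' s - K β x s| ≤ C * (x' - x) := by
  obtain ⟨C, hC, h⟩ := EE_lip hβ
  refine ⟨C + Lam β (bb β), by have := Lam_pos (β := β) (bb_pos β) (bb_lt_one hβ); positivity,
    fun x x' s hx0 hxx hx' hs0 hs => ?_⟩
  have hLb := Lam_pos (β := β) (bb_pos β) (bb_lt_one hβ)
  have hL0 : 0 ≤ Lam β s := by
    have := Lam_mono hβ le_rfl hs0 hs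
    rwa [Lam_zero] at this
  have hL1 := Lam_mono hβ hs0 hs le_rfl
  rw [K_eq_max hβ (hx0.trans hxx) hx' hs0 hs, K_eq_max hβ hx0 (hxx.trans hx') hs0 hs]
  have h1 := h x x' hx0 hxx
  have h2 : x' * Lam β s - x * Lam β s ≤ Lam β (bb β) * (x' - x) := by nlinarith
  have h3 := EE_le hβ hx0 hxx
  have h4 : x * Lam β s ≤ x' * Lam β s := mul_le_mul_of_nonneg_right hxx hL0
  have h5 : max (EE β x) (x * Lam β s) ≤ max (EE β x') (x' * Lam β s) := max_le_max h3 h4
  rw [abs_of_nonneg (by linarith)]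
  have hxx' : 0 ≤ x' - x := by linarith
  have h6 : max (EE β x') (x' * Lam β s) ≤ max (EE β x) (x * Lam β s) +
      (C + Lam β (bb β)) * (x' - x) := by
    refine max_le ?_ ?_
    · have := le_max_left (EE β x) (x * Lam β s)
      nlinarith
    · have := le_max_right (EE β x) (x * Lam β s)
      nlinarith
  linarith

lemma K_neg (β x s : ℝ) : K β (-x) s = -K β x s := by unfold K; rw [abs_neg]; ring

lemma K_zero (β s : ℝ) : K β 0 s = 0 := by simp [K]

/-- `K` is Lipschitz on the box. -/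
lemma K_lip {β : ℝ} (hβ : 0 < β) : ∃ C : ℝ, 0 < C ∧ ∀ x x' s s' : ℝ, |x| ≤ aa β → |x'| ≤ aa β →
    0 ≤ s → s ≤ bb β → 0 ≤ s' → s' ≤ bb β →
    |K β x s - K β x' s'| ≤ C * |x - x'| + |s - s'| := by
  obtain ⟨C, hC, h⟩ := K_lip_x hβ
  refine ⟨C, hC, fun x x' s s' hx hx' hs0 hs hs0' hs' => ?_⟩
  -- in s
  have key1 : ∀ y, |y| ≤ aa β → |K β y s - K β y s'| ≤ |s - s'| := by
    intro y hy
    have h0 : ∀ z, 0 ≤ z → z ≤ aa β → |K β z s - K β z s'| ≤ |s - s'| := by
      intro z hz0 hz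
      rcases le_total s s' with h1 | h1
      · have := K_lip_s hβ hz0 hz hs0 h1 hs'
        rw [abs_sub_comm, abs_sub_comm s s', abs_of_nonneg (by linarith : 0 ≤ s' - s)]
        exact this
      · have := K_lip_s hβ hz0 hz hs0' h1 hs
        rw [abs_of_nonneg (by linarith : 0 ≤ s - s')]
        exact this
    rcases abs_cases y with ⟨h1, h2⟩ | ⟨h1, h2⟩
    · exact h0 y h2 (h1 ▸ hy)
    · have h3 := h0 (-y) (by linarith) (h1 ▸ hy)
      rw [K_neg, K_neg] at h3
      have : -K β y s - -K β y s' = -(K β y s - K β y s') := by ring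
      rwa [this, abs_neg] at h3
  -- in x
  have key2 : ∀ y y', |y| ≤ aa β → |y'| ≤ aa β → y ≤ y' → |K β y' s' - K β y s'| ≤ C * (y' - y) := by
    intro y y' hy hy' hyy
    rcases le_total 0 y with h1 | h1
    · exact h y y' s' h1 hyy ((le_abs_self _).trans hy') hs0' hs'
    · rcases le_total 0 y' with h2 | h2
      · have e1 := h 0 y' s' le_rfl h2 ((le_abs_self _).trans hy') hs0' hs'
        have e2 := h 0 (-y) s' le_rfl (by linarith) (by rw [abs_of_nonpos h1] at hy; exact hy)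
          hs0' hs'
        rw [K_zero, sub_zero] at e1 e2
        rw [K_neg, abs_neg] at e2
        have := abs_sub (K β y' s') (K β y s')
        linarith
      · have e1 := h (-y') (-y) s' (by linarith) (by linarith)
          (by rw [abs_of_nonpos h1] at hy; exact hy) hs0' hs'
        rw [K_neg, K_neg] at e1
        have : -K β y s' - -K β y' s' = K β y' s' - K β y s' := by ring
        rw [this] at e1
        linarith
  have key3 : |K β x s' - K β x' s'| ≤ C * |x - x'| := by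
    rcases le_total x x' with h1 | h1
    · rw [abs_sub_comm, abs_sub_comm x x', abs_of_nonneg (by linarith : 0 ≤ x' - x)]
      exact key2 x x' hx hx' h1
    · rw [abs_of_nonneg (by linarith : 0 ≤ x - x')]
      exact key2 x' x hx' hx h1
  have e : K β x s - K β x' s' = (K β x s - K β x s') + (K β x s' - K β x' s') := by ring
  rw [e]
  refine (abs_add_le _ _).trans ?_
  have := key1 x hx
  linarith

end Pool.Agent.X100.LogMod
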