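import Mathlib
import Pool.Agent.X100.LogMod.Real

set_option autoImplicit false

open Real Set Filter Topology

namespace Pool.Agent.X100.LogMod

variable {m : ℕ}

/-- the last `m` coordinates, with the sup norm -/
def tl (x : EuclideanSpace ℝ (Fin (m + 1))) : Fin m → ℝ := fun i => x i.succ

lemma continuous_tl : Continuous (tl (m := m)) := by
  unfold tl
  fun_prop

lemma norm_tl_le (x : EuclideanSpace ℝ (Fin (m + 1))) : ‖tl x‖ ≤ ‖x‖ := by
  rw [pi_norm_le_iff_of_nonneg (norm_nonneg _)]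
  intro i
  exact PiLp.norm_apply_le x i.succ

lemma abs_zero_le (x : EuclideanSpace ℝ (Fin (m + 1))) : |x 0| ≤ ‖x‖ := PiLp.norm_apply_le x 0

lemma tl_sub (x y : EuclideanSpace ℝ (Fin (m + 1))) : tl (x - y) = tl x - tl y := rfl

/-- the first basis vector -/
noncomputable def e0 : EuclideanSpace ℝ (Fin (m + 1)) := EuclideanSpace.single 0 1

lemma e0_zero : (e0 : EuclideanSpace ℝ (Fin (m + 1))) 0 = 1 := by simp [e0]

lemma e0_succ (i : Fin m) : (e0 : EuclideanSpace ℝ (Fin (m + 1))) i.succ = 0 := by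
  simp [e0]

lemma norm_e0 : ‖(e0 : EuclideanSpace ℝ (Fin (m + 1)))‖ = 1 := by simp [e0]

lemma tl_add_smul (x : EuclideanSpace ℝ (Fin (m + 1))) (c : ℝ) : tl (x + c • e0) = tl x := by
  funext i
  simp [tl, e0_succ]

lemma zero_add_smul (x : EuclideanSpace ℝ (Fin (m + 1))) (c : ℝ) :
    (x + c • (e0 : EuclideanSpace ℝ (Fin (m + 1)))) 0 = x 0 + c := by
  simp [e0_zero]

/-- truncation to `[-a, a]` -/
noncomputable def cl (a x : ℝ) : ℝ := max (-a) (min a x)

lemma cl_eq {a x : ℝ} (h : |x| ≤ a) : cl a x = x := by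
  rw [abs_le] at h
  unfold cl
  rw [min_eq_right h.2, max_eq_right h.1]

lemma abs_cl_le {a : ℝ} (ha : 0 ≤ a) (x : ℝ) : |cl a x| ≤ a := by
  unfold cl
  rw [abs_le]
  exact ⟨le_max_left _ _, max_le (by linarith) (min_le_left _ _)⟩

lemma cl_lip (a x y : ℝ) : |cl a x - cl a y| ≤ |x - y| := by
  unfold cl
  refine (abs_max_sub_max_le_max _ _ _ _).trans ?_
  rw [sub_self, abs_zero]
  refine max_le (abs_nonneg _) ?_
  refine (abs_min_sub_min_le_max _ _ _ _).trans ?_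
  rw [sub_self, abs_zero]
  exact max_le (abs_nonneg _) le_rfl

noncomputable def KK (β x s : ℝ) : ℝ := K β (cl (aa β) x) (min s (bb β))

lemma KK_eq {β x s : ℝ} (hx : |x| ≤ aa β) (hs : s ≤ bb β) : KK β x s = K β x s := by
  unfold KK
  rw [cl_eq hx, min_eq_left hs]

lemma KK_lip {β : ℝ} (hβ : 0 < β) : ∃ C : ℝ, 0 < C ∧ ∀ x x' s s' : ℝ, 0 ≤ s → 0 ≤ s' →
    |KK β x s - KK β x' s'| ≤ C * |x - x'| + |s - s'| := by
  obtain ⟨C, hC, h⟩ := K_lip hβ
  refine ⟨C, hC, fun x x' s s' hs hs' => ?_⟩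
  unfold KK
  refine (h _ _ _ _ (abs_cl_le (aa_pos hβ).le x) (abs_cl_le (aa_pos hβ).le x')
    (le_min hs (bb_pos β).le) (min_le_right _ _) (le_min hs' (bb_pos β).le)
    (min_le_right _ _)).trans ?_
  have h1 := cl_lip (aa β) x x'
  have h2 : |min s (bb β) - min s' (bb β)| ≤ |s - s'| := by
    refine (abs_min_sub_min_le_max _ _ _ _).trans ?_
    rw [sub_self, abs_zero]
    exact max_le le_rfl (abs_nonneg _)
  gcongr

/-- the map -/
noncomputable def FF (m : ℕ) (β : ℝ) (x : EuclideanSpace ℝ (Fin (m + 1))) :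
    EuclideanSpace ℝ (Fin (m + 1)) :=
  x + (KK β (x 0) ‖tl x‖ - x 0) • e0

/-- the inverse -/
noncomputable def GG (m : ℕ) (β : ℝ) (y : EuclideanSpace ℝ (Fin (m + 1))) :
    EuclideanSpace ℝ (Fin (m + 1)) :=
  y + (H β (y 0) ‖tl y‖ - y 0) • e0

lemma FF_zero (β : ℝ) (x : EuclideanSpace ℝ (Fin (m + 1))) : FF m β x 0 = KK β (x 0) ‖tl x‖ := by
  unfold FF; rw [zero_add_smul]; ring

lemma tl_FF (β : ℝ) (x : EuclideanSpace ℝ (Fin (m + 1))) : tl (FF m β x) = tl x := by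
  unfold FF; rw [tl_add_smul]

lemma GG_zero (β : ℝ) (x : EuclideanSpace ℝ (Fin (m + 1))) : GG m β x 0 = H β (x 0) ‖tl x‖ := by
  unfold GG; rw [zero_add_smul]; ring

lemma tl_GG (β : ℝ) (x : EuclideanSpace ℝ (Fin (m + 1))) : tl (GG m β x) = tl x := by
  unfold GG; rw [tl_add_smul]

lemma ext_tl {x y : EuclideanSpace ℝ (Fin (m + 1))} (h0 : x 0 = y 0) (h : tl x = tl y) : x = y := by
  ext i
  refine Fin.cases h0 (fun j => ?_) i
  exact congrFun h j

lemma FF_lip {β : ℝ} (hβ : 0 < β) : ∃ C, LipschitzWith C (FF m β) := by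
  obtain ⟨C, hC, h⟩ := KK_lip hβ
  refine ⟨⟨C + 3, by positivity⟩, LipschitzWith.of_dist_le_mul fun x y => ?_⟩
  rw [dist_eq_norm, dist_eq_norm]
  have e : FF m β x - FF m β y = (x - y) +
      ((KK β (x 0) ‖tl x‖ - KK β (y 0) ‖tl y‖) - (x 0 - y 0)) • e0 := by
    unfold FF
    module
  rw [e]
  have h1 : |x 0 - y 0| ≤ ‖x - y‖ := abs_zero_le (x - y)
  have h2 : |‖tl x‖ - ‖tl y‖| ≤ ‖x - y‖ :=
    (abs_norm_sub_norm_le _ _).trans (norm_tl_le (x - y))
  have h3 := h (x 0) (y 0) ‖tl x‖ ‖tl y‖ (norm_nonneg _) (norm_nonneg _)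
  have h4 : C * |x 0 - y 0| ≤ C * ‖x - y‖ := mul_le_mul_of_nonneg_left h1 hC.le
  calc _ ≤ ‖x - y‖ + ‖((KK β (x 0) ‖tl x‖ - KK β (y 0) ‖tl y‖) - (x 0 - y 0)) • (e0 : EuclideanSpace ℝ (Fin (m + 1)))‖ :=
        norm_add_le _ _
    _ ≤ ‖x - y‖ + (|KK β (x 0) ‖tl x‖ - KK β (y 0) ‖tl y‖| + |x 0 - y 0|) := by
        rw [norm_smul, norm_e0, mul_one]
        gcongr
        exact norm_sub_le _ _
    _ ≤ (C + 3) * ‖x - y‖ := by linarith
    _ = _ := rfl

/-- the box on which we work -/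
def Src (m : ℕ) (β : ℝ) : Set (EuclideanSpace ℝ (Fin (m + 1))) := {x | |x 0| < aa β ∧ ‖tl x‖ < bb β}

/-- the image of the box -/
def Tgt (m : ℕ) (β : ℝ) : Set (EuclideanSpace ℝ (Fin (m + 1))) := {x | |x 0| < bb β ∧ ‖tl x‖ < bb β}

lemma cont_zero : Continuous (fun x : EuclideanSpace ℝ (Fin (m + 1)) => x 0) := by fun_prop

lemma isOpen_Src (β : ℝ) : IsOpen (Src m β) :=
  (isOpen_lt cont_zero.abs continuous_const).inter (isOpen_lt continuous_tl.norm continuous_const)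

lemma isOpen_Tgt (β : ℝ) : IsOpen (Tgt m β) :=
  (isOpen_lt cont_zero.abs continuous_const).inter (isOpen_lt continuous_tl.norm continuous_const)

lemma Lam_cont {β r : ℝ} (h0 : 0 < r) (h1 : r < 1) : ContinuousAt (Lam β) r := by
  unfold Lam
  refine continuousAt_id.mul ?_
  exact ((continuousAt_log h0.ne').neg).rpow_const (Or.inl (neglog_pos h0 h1).ne')

lemma GG_cont {β : ℝ} (hβ : 0 < β) : ContinuousOn (GG m β) (Tgt m β) := by
  have key : ContinuousOn (fun y : EuclideanSpace ℝ (Fin (m + 1)) => H β (y 0) ‖tl y‖) (Tgt m β) := by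
    intro y hy
    have hmax : Continuous (fun y : EuclideanSpace ℝ (Fin (m + 1)) => max |y 0| ‖tl y‖) :=
      cont_zero.abs.max continuous_tl.norm
    by_cases h : max |y 0| ‖tl y‖ = 0
    · have h1 : y 0 = 0 := abs_nonpos_iff.mp (h ▸ le_max_left _ _)
      rw [Metric.continuousWithinAt_iff']
      intro ε hε
      have h2 : ∀ᶠ x in 𝓝 y, max |x 0| ‖tl x‖ < EE β ε := by
        have := hmax.continuousAt (x := y)
        refine this.eventually_lt_const ?_
        show max |y 0| ‖tl y‖ < EE β ε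
        rw [h]; exact EE_pos hε
      filter_upwards [mem_nhdsWithin_of_mem_nhds h2, self_mem_nhdsWithin] with x hx hxT
      have h3 : H β (y 0) ‖tl y‖ = 0 := by rw [h1]; simp [H]
      rw [h3, dist_zero_right]
      exact H_le hβ (norm_nonneg _) hxT.1 hxT.2 hε hx
    · have h0 : 0 < max |y 0| ‖tl y‖ :=
        lt_of_le_of_ne ((norm_nonneg _).trans (le_max_right _ _)) (Ne.symm h)
      have h1 : max |y 0| ‖tl y‖ < 1 := (max_lt hy.1 hy.2).trans (bb_lt_one hβ)
      refine ContinuousAt.continuousWithinAt ?_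
      unfold H
      refine cont_zero.continuousAt.div ?_ (Lam_pos h0 h1).ne'
      exact ContinuousAt.comp (f := fun y : EuclideanSpace ℝ (Fin (m + 1)) => max |y 0| ‖tl y‖)
        (Lam_cont h0 h1) hmax.continuousAt
  unfold GG
  exact continuousOn_id.add ((key.sub cont_zero.continuousOn).smul continuousOn_const)

/-- the homeomorphism -/
noncomputable def PH (m : ℕ) {β : ℝ} (hβ : 0 < β) :
    OpenPartialHomeomorph (EuclideanSpace ℝ (Fin (m + 1))) (EuclideanSpace ℝ (Fin (m + 1))) where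
  toFun := FF m β
  invFun := GG m β
  source := Src m β
  target := Tgt m β
  map_source' := by
    intro x hx
    refine ⟨?_, ?_⟩
    · rw [FF_zero, KK_eq hx.1.le hx.2.le]
      exact K_lt hβ (norm_nonneg _) hx.1 hx.2
    · rw [tl_FF]; exact hx.2
  map_target' := by
    intro y hy
    refine ⟨?_, ?_⟩
    · rw [GG_zero]
      exact H_lt hβ (norm_nonneg _) hy.1 hy.2
    · rw [tl_GG]; exact hy.2
  left_inv' := by
    intro x hx
    refine ext_tl ?_ ?_
    · rw [GG_zero, FF_zero, tl_FF, KK_eq hx.1.le hx.2.le]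
      exact H_K hβ (norm_nonneg _) hx.1 hx.2
    · rw [tl_GG, tl_FF]
  right_inv' := by
    intro y hy
    refine ext_tl ?_ ?_
    · rw [FF_zero, GG_zero, tl_GG, KK_eq (H_lt hβ (norm_nonneg _) hy.1 hy.2).le hy.2.le]
      exact K_H hβ (norm_nonneg _) hy.1 hy.2
    · rw [tl_FF, tl_GG]
  open_source := isOpen_Src β
  open_target := isOpen_Tgt β
  continuousOn_toFun := by
    obtain ⟨C, hC⟩ := FF_lip (m := m) hβ
    exact hC.continuous.continuousOn
  continuousOn_invFun := GG_cont hβ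

end Pool.Agent.X100.LogMod
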