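import Mathlib

set_option autoImplicit false

open Real Set Filter Topology MeasureTheory
open scoped ContDiff

namespace Pool.Agent.X100.LogMod

/-- `G` is the weak (distributional) derivative of `f` on the open set `Ω`. -/
def HasWeakDeriv {n : ℕ} (Ω : Set (EuclideanSpace ℝ (Fin n)))
    (f : EuclideanSpace ℝ (Fin n) → EuclideanSpace ℝ (Fin n))
    (G : EuclideanSpace ℝ (Fin n) → EuclideanSpace ℝ (Fin n) →L[ℝ] EuclideanSpace ℝ (Fin n)) :
    Prop :=
  LocallyIntegrableOn f Ω ∧ LocallyIntegrableOn G Ω ∧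
    ∀ φ : EuclideanSpace ℝ (Fin n) → ℝ, ContDiff ℝ ∞ φ → HasCompactSupport φ → tsupport φ ⊆ Ω →
      ∀ v : EuclideanSpace ℝ (Fin n),
        ∫ x in Ω, (fderiv ℝ φ x v) • f x = - ∫ x in Ω, φ x • G x v

/-- The distortion of a linear map: `|A|^n / det A` if `det A > 0` and `1` otherwise. -/
noncomputable def distortion {n : ℕ}
    (A : EuclideanSpace ℝ (Fin n) →L[ℝ] EuclideanSpace ℝ (Fin n)) : ℝ :=
  if 0 < A.det then ‖A‖ ^ n / A.det else 1

/-- `f` belongs to `W^{1,1}_loc(Ω)`, has finite distortion, and `K_f ∈ L^{n-1}_loc(Ω)`. -/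
def FiniteDistortion {n : ℕ} (Ω : Set (EuclideanSpace ℝ (Fin n)))
    (f : EuclideanSpace ℝ (Fin n) → EuclideanSpace ℝ (Fin n)) : Prop :=
  ∃ G : EuclideanSpace ℝ (Fin n) → EuclideanSpace ℝ (Fin n) →L[ℝ] EuclideanSpace ℝ (Fin n),
    HasWeakDeriv Ω f G ∧
    LocallyIntegrableOn (fun x => (G x).det) Ω ∧
    (∃ K : EuclideanSpace ℝ (Fin n) → ℝ, Measurable K ∧ (∀ x, 1 ≤ K x) ∧
      ∀ᵐ x ∂(volume.restrict Ω), ‖G x‖ ^ n ≤ K x * (G x).det) ∧
    LocallyIntegrableOn (fun x => distortion (G x) ^ (n - 1)) Ω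

/-- `α` is admissible in dimension `n`. -/
def Admissible (n : ℕ) (α : ℝ) : Prop :=
  0 < α ∧ ∀ f : OpenPartialHomeomorph (EuclideanSpace ℝ (Fin n)) (EuclideanSpace ℝ (Fin n)),
    FiniteDistortion f.source f → ∀ (z : EuclideanSpace ℝ (Fin n)) (R : ℝ), 0 < R →
      Metric.closedBall z R ⊆ f.target →
        ∃ C : ℝ, ∀ x ∈ Metric.ball z R, x ≠ z →
          ‖f.symm x - f.symm z‖ ≤ C * (Real.log (R / ‖x - z‖)) ^ (-α)

lemma hasWeakDeriv_of_lipschitz {n : ℕ} {f : EuclideanSpace ℝ (Fin n) → EuclideanSpace ℝ (Fin n)}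
    {C : NNReal} (hf : LipschitzWith C f) (Ω : Set (EuclideanSpace ℝ (Fin n))) :
    HasWeakDeriv Ω f (fderiv ℝ f) := by
  have hmeas : Measurable (fderiv ℝ f) := measurable_fderiv ℝ f
  have hbd : ∀ x, ‖fderiv ℝ f x‖ ≤ C := fun x => norm_fderiv_le_of_lipschitz ℝ hf
  refine ⟨hf.continuous.locallyIntegrable.locallyIntegrableOn Ω, ?_, ?_⟩
  · have h1 : LocallyIntegrable (fderiv ℝ f) volume := by
      refine (locallyIntegrable_const (C : ℝ)).mono hmeas.aestronglyMeasurable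
        (ae_of_all _ fun x => ?_)
      exact (hbd x).trans (le_abs_self _)
    exact h1.locallyIntegrableOn Ω
  intro φ hφ hφc hφs v
  have hz1 : ∀ x, x ∉ Ω → fderiv ℝ φ x = 0 := fun x hx =>
    fderiv_of_notMem_tsupport ℝ (fun h => hx (hφs h))
  have hz2 : ∀ x, x ∉ Ω → φ x = 0 := fun x hx =>
    image_eq_zero_of_notMem_tsupport (fun h => hx (hφs h))
  rw [setIntegral_eq_integral_of_forall_compl_eq_zero (fun x hx => by simp [hz1 x hx]),
    setIntegral_eq_integral_of_forall_compl_eq_zero (fun x hx => by simp [hz2 x hx])]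
  have hφcont := hφ.continuous
  have hfcont := hf.continuous
  have hdcont : Continuous (fun x => fderiv ℝ φ x v) :=
    (hφ.continuous_fderiv (by simp)).clm_apply continuous_const
  have hdc : HasCompactSupport (fun x => fderiv ℝ φ x v) := hφc.fderiv_apply ℝ v
  have hint1 : Integrable (fun x => (fderiv ℝ φ x v) • f x) :=
    (hdcont.smul hfcont).integrable_of_hasCompactSupport hdc.smul_right
  have hint2 : Integrable (fun x => φ x • fderiv ℝ f x v) := by
    have h1 : Integrable (fun x => ‖φ x‖ * (C * ‖v‖)) :=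
      ((hφcont.integrable_of_hasCompactSupport hφc).norm).mul_const _
    refine h1.mono' ?_ (ae_of_all _ fun x => ?_)
    · exact (hφcont.measurable.smul (hmeas.apply_continuousLinearMap v)).aestronglyMeasurable
    · rw [norm_smul]
      exact mul_le_mul_of_nonneg_left
        ((ContinuousLinearMap.le_opNorm _ _).trans
          (mul_le_mul_of_nonneg_right (hbd x) (norm_nonneg _))) (norm_nonneg _)
  ext i
  have e1 : (∫ x, (fderiv ℝ φ x v) • f x) i = ∫ x, (fderiv ℝ φ x v) * f x i :=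
    ((EuclideanSpace.proj (𝕜 := ℝ) i).integral_comp_comm hint1).symm
  have e2 : (∫ x, φ x • fderiv ℝ f x v) i = ∫ x, φ x * (fderiv ℝ f x v) i :=
    ((EuclideanSpace.proj (𝕜 := ℝ) i).integral_comp_comm hint2).symm
  show (∫ x, (fderiv ℝ φ x v) • f x) i = -((∫ x, φ x • fderiv ℝ f x v) i)
  rw [e1, e2]
  have hfi : LipschitzWith C (fun x => f x i) := by
    refine LipschitzWith.of_dist_le_mul fun x y => ?_
    refine le_trans ?_ (hf.dist_le_mul x y)
    rw [dist_eq_norm, dist_eq_norm]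
    exact PiLp.norm_apply_le (f x - f y) i
  obtain ⟨D, hD⟩ : ∃ D, LipschitzWith D φ :=
    ContDiff.lipschitzWith_of_hasCompactSupport hφc hφ (by simp)
  have h3 := LipschitzWith.integral_lineDeriv_mul_eq (μ := (volume : Measure (EuclideanSpace ℝ (Fin n))))
    hfi hD hφc v
  have e3 : ∫ x, φ x * (fderiv ℝ f x v) i = ∫ x, lineDeriv ℝ (fun x => f x i) x v * φ x := by
    refine integral_congr_ae ?_
    filter_upwards [hf.ae_differentiableAt] with x hx
    have h4 : HasFDerivAt (fun x => f x i) ((EuclideanSpace.proj (𝕜 := ℝ) i).comp (fderiv ℝ f x)) x :=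
      (EuclideanSpace.proj (𝕜 := ℝ) i).hasFDerivAt.comp x hx.hasFDerivAt
    rw [(h4.hasLineDerivAt v).lineDeriv, mul_comm]
    rfl
  have e4 : ∫ x, lineDeriv ℝ φ x (-v) * f x i = - ∫ x, (fderiv ℝ φ x v) * f x i := by
    rw [← integral_neg]
    refine integral_congr_ae (ae_of_all _ fun x => ?_)
    have h5 : DifferentiableAt ℝ φ x := (hφ.differentiable (by simp)).differentiableAt
    show lineDeriv ℝ φ x (-v) * f x i = -((fderiv ℝ φ x v) * f x i)
    rw [h5.lineDeriv_eq_fderiv, map_neg, neg_mul]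
  rw [e3, h3, e4, neg_neg]

end Pool.Agent.X100.LogMod
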