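import Mathlib
import Pool.Agent.X100.LogMod.Map
import Pool.Agent.X100.LogMod.Weak

set_option autoImplicit false

open Real Set Filter Topology

namespace Pool.Agent.X100.LogMod

variable {m : ℕ}

/-- the derivative of `EE` -/
noncomputable def EEd (β t : ℝ) : ℝ := 1 / β * t ^ (-(1 / β) - 1) * EE β t

lemma EEd_pos {β t : ℝ} (hβ : 0 < β) (ht : 0 < t) : 0 < EEd β t := by
  unfold EEd
  have h1 := EE_pos (β := β) ht
  have h2 : 0 < t ^ (-(1 / β) - 1) := rpow_pos_of_pos ht _
  positivity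

/-- the Jacobian of the map -/
noncomputable def Jl (β t s : ℝ) : ℝ := if s ≤ EE β t then EEd β t else Lam β s

lemma derA {β x s d : ℝ} (hβ : 0 < β) (hx0 : 0 < x) (hx : x < aa β) (hs0 : 0 ≤ s)
    (hs : s ≤ EE β x) (h : HasDerivAt (fun t => K β t s) d x) : d = EEd β x := by
  have hE : EE β x ≤ bb β := by rw [← EE_aa hβ]; exact EE_le hβ hx0.le hx.le
  have hmin : IsLocalMin (fun t => K β t s - EE β t) x := by
    filter_upwards [lt_mem_nhds hx0, gt_mem_nhds hx] with t ht0 ht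
    have h1 : K β x s = EE β x := by
      unfold K
      rw [abs_of_pos hx0, max_eq_left hs, EE_mul_Lam hβ hx0]
    rw [h1, sub_self, K_eq_max hβ ht0.le ht.le hs0 (hs.trans hE)]
    have := le_max_left (EE β t) (t * Lam β s)
    linarith
  have h2 := hmin.hasDerivAt_eq_zero (h.sub (hasDerivAt_EE hx0))
  unfold EEd
  linarith

lemma derB {β x s d : ℝ} (hβ : 0 < β) (hs : EE β |x| < s) (hs1 : s < 1)
    (h : HasDerivAt (fun t => K β t s) d x) : d = Lam β s := by
  have hs0 : 0 < s := (EE_nonneg β |x|).trans_lt hs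
  have h1 : |x| < rho β s := by
    refine lt_of_EE_lt hβ (rho_pos hs0 hs1).le ?_
    rwa [EE_rho hβ hs0 hs1]
  have h2 : ∀ᶠ t in 𝓝 x, |t| < rho β s := continuous_abs.continuousAt.eventually_lt_const h1
  have h3 : (fun t => K β t s) =ᶠ[𝓝 x] fun t => t * Lam β s := by
    filter_upwards [h2] with t ht
    have h4 : EE β |t| ≤ s := by
      have := EE_le hβ (abs_nonneg t) ht.le
      rwa [EE_rho hβ hs0 hs1] at this
    unfold K
    rw [max_eq_right h4]
  have h4 : HasDerivAt (fun t => t * Lam β s) (Lam β s) x := by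
    simpa using (hasDerivAt_id x).mul_const (Lam β s)
  exact h.unique (h4.congr_of_eventuallyEq h3)

lemma der_K {β x s d : ℝ} (hβ : 0 < β) (hx : |x| < aa β) (hs0 : 0 ≤ s) (hs : s < bb β)
    (hne : ¬ (x = 0 ∧ s = 0)) (h : HasDerivAt (fun t => K β t s) d x) : d = Jl β |x| s := by
  unfold Jl
  split_ifs with h1
  · rcases lt_trichotomy x 0 with h2 | h2 | h2
    · have h3 : HasDerivAt (fun t => K β t s) d (-x) := by
        have h4 : HasDerivAt (fun t => K β t s) d (- -x) := by rwa [neg_neg]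
        have h5 := (h4.comp (-x) (hasDerivAt_neg (-x))).neg
        have h6 : (-((fun t => K β t s) ∘ Neg.neg)) = fun t => K β t s := by
          funext t
          simp [K_neg]
        rw [h6] at h5
        simpa using h5
      rw [abs_of_neg h2] at hx h1 ⊢
      exact derA hβ (by linarith) hx hs0 h1 h3
    · exfalso
      rw [h2, abs_zero, EE_zero] at h1
      exact hne ⟨h2, le_antisymm h1 hs0⟩
    · rw [abs_of_pos h2] at hx h1 ⊢
      exact derA hβ h2 hx hs0 h1 h
  · push Not at h1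
    exact derB hβ h1 (hs.trans (bb_lt_one hβ)) h

lemma Jl_pos {β x s : ℝ} (hβ : 0 < β) (hs0 : 0 ≤ s) (hs : s < bb β)
    (hne : ¬ (x = 0 ∧ s = 0)) : 0 < Jl β |x| s := by
  unfold Jl
  split_ifs with h1
  · refine EEd_pos hβ ?_
    rw [abs_pos]
    intro h2
    rw [h2, abs_zero, EE_zero] at h1
    exact hne ⟨h2, le_antisymm h1 hs0⟩
  · push Not at h1
    exact Lam_pos ((EE_nonneg β |x|).trans_lt h1) (hs.trans (bb_lt_one hβ))

lemma ne_of_ne_zero {x : EuclideanSpace ℝ (Fin (m + 1))} (h : x ≠ 0) : ¬ (x 0 = 0 ∧ ‖tl x‖ = 0) := by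
  rintro ⟨h1, h2⟩
  refine h (ext_tl h1 ?_)
  rw [norm_eq_zero] at h2
  rw [h2]
  funext i
  rfl

lemma det_FF {β : ℝ} (hβ : 0 < β) {x : EuclideanSpace ℝ (Fin (m + 1))} (hx : x ∈ Src m β)
    (hne : x ≠ 0) (hd : DifferentiableAt ℝ (FF m β) x) :
    (fderiv ℝ (FF m β) x).det = Jl β |x 0| ‖tl x‖ := by
  set P : EuclideanSpace ℝ (Fin (m + 1)) →L[ℝ] ℝ := EuclideanSpace.proj (𝕜 := ℝ) 0 with hP
  set L : EuclideanSpace ℝ (Fin (m + 1)) →L[ℝ] ℝ := P.comp (fderiv ℝ (FF m β) x) with hL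
  have h1 : HasFDerivAt (fun y => FF m β y 0) L x := P.hasFDerivAt.comp x hd.hasFDerivAt
  have hP0 : ∀ y, P y = y 0 := fun y => rfl
  -- derivative along the line
  have hline : HasDerivAt (fun t : ℝ => x + (t - x 0) • (e0 : EuclideanSpace ℝ (Fin (m + 1)))) e0
      (x 0) := by
    have h2 : HasDerivAt (fun t : ℝ => t - x 0) 1 (x 0) := (hasDerivAt_id _).sub_const _
    have h3 := (h2.smul_const (e0 : EuclideanSpace ℝ (Fin (m + 1)))).const_add x
    simpa using h3
  have h2 : HasDerivAt (fun t => KK β t ‖tl x‖) (L e0) (x 0) := by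
    have h3 : HasFDerivAt (fun y => FF m β y 0) L
        (x + (x 0 - x 0) • (e0 : EuclideanSpace ℝ (Fin (m + 1)))) := by
      rw [sub_self, zero_smul, add_zero]; exact h1
    have h4 := h3.comp_hasDerivAt (x 0) hline
    have h5 : ((fun y => FF m β y 0) ∘ fun t : ℝ => x + (t - x 0) • (e0 : EuclideanSpace ℝ (Fin (m + 1))))
        = fun t => KK β t ‖tl x‖ := by
      funext t
      simp only [Function.comp]
      rw [FF_zero, tl_add_smul, zero_add_smul]
      congr 1
      ring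
    rwa [h5] at h4
  have h3 : HasDerivAt (fun t => K β t ‖tl x‖) (L e0) (x 0) := by
    refine h2.congr_of_eventuallyEq ?_
    have : ∀ᶠ t in 𝓝 (x 0), |t| < aa β := continuous_abs.continuousAt.eventually_lt_const hx.1
    filter_upwards [this] with t ht
    exact (KK_eq ht.le hx.2.le).symm
  have h4 : L e0 = Jl β |x 0| ‖tl x‖ :=
    der_K hβ hx.1 (norm_nonneg _) hx.2 (ne_of_ne_zero hne) h3
  -- the full derivative
  have h5 : HasFDerivAt (FF m β)
      (ContinuousLinearMap.id ℝ _ + (L - P).smulRight (e0 : EuclideanSpace ℝ (Fin (m + 1)))) x := by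
    have h6 : HasFDerivAt (fun y => FF m β y 0 - y 0) (L - P) x := h1.sub P.hasFDerivAt
    have h7 := (hasFDerivAt_id x).add (h6.smul_const (e0 : EuclideanSpace ℝ (Fin (m + 1))))
    refine h7.congr_of_eventuallyEq (Filter.Eventually.of_forall fun y => ?_)
    show FF m β y = y + (FF m β y 0 - y 0) • e0
    rw [FF_zero]
    rfl
  have h6 : ((fderiv ℝ (FF m β) x : EuclideanSpace ℝ (Fin (m + 1)) →L[ℝ] EuclideanSpace ℝ (Fin (m + 1))) :
      EuclideanSpace ℝ (Fin (m + 1)) →ₗ[ℝ] EuclideanSpace ℝ (Fin (m + 1))) =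
      LinearMap.transvection ((L - P : EuclideanSpace ℝ (Fin (m + 1)) →L[ℝ] ℝ) :
        EuclideanSpace ℝ (Fin (m + 1)) →ₗ[ℝ] ℝ) e0 := by
    rw [h5.fderiv]
    refine LinearMap.ext fun y => ?_
    simp [LinearMap.transvection.apply]
  rw [ContinuousLinearMap.det, h6, LinearMap.transvection.det]
  show 1 + (L e0 - P e0) = _
  rw [h4, hP0, e0_zero]
  ring

end Pool.Agent.X100.LogMod
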