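import Mathlib
import Pool.Agent.X100.LogMod.Jac

set_option autoImplicit false

open Real Set Filter Topology MeasureTheory

namespace Pool.Agent.X100.LogMod

variable {m : ℕ}

lemma integrable_1d {b c : ℝ} (hb : 0 < b) (hb1 : b < 1) (hc : 1 < c) :
    IntegrableOn (fun s : ℝ => s⁻¹ * (-log s) ^ (-c)) (Ioo 0 b) := by
  set g : ℝ → ℝ := fun s => (-log s) ^ (-(c - 1)) / (c - 1) with hg
  have hc1 : 0 < c - 1 := by linarith
  have hcont : ContinuousOn g (Icc 0 b) := by
    intro s hs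
    rcases eq_or_lt_of_le hs.1 with h0 | h0
    · subst h0
      rw [continuousWithinAt_Icc_iff_Ici hb, ← continuousWithinAt_Ioi_iff_Ici]
      show Tendsto g (𝓝[>] 0) (𝓝 (g 0))
      have h1 : g 0 = 0 := by
        simp only [hg, log_zero, neg_zero]
        rw [zero_rpow (by linarith), zero_div]
      rw [h1]
      have h2 : Tendsto (fun s : ℝ => -log s) (𝓝[>] 0) atTop :=
        tendsto_neg_atBot_atTop.comp tendsto_log_nhdsGT_zero
      have h3 := ((tendsto_rpow_neg_atTop hc1).comp h2).div_const (c - 1)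
      simpa [hg, Function.comp] using h3
    · refine ContinuousAt.continuousWithinAt ?_
      refine ContinuousAt.div_const ?_ _
      exact ((continuousAt_log h0.ne').neg).rpow_const
        (Or.inl (neglog_pos h0 (hs.2.trans_lt hb1)).ne')
  have hder : ∀ s ∈ Ioo 0 b, HasDerivAt g (s⁻¹ * (-log s) ^ (-c)) s := by
    intro s hs
    have h1 := neglog_pos hs.1 (hs.2.trans hb1)
    have h2 : HasDerivAt (fun s : ℝ => -log s) (-s⁻¹) s := (hasDerivAt_log hs.1.ne').neg
    have h3 := (h2.rpow_const (p := -(c - 1)) (Or.inl h1.ne')).div_const (c - 1)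
    refine h3.congr_deriv ?_
    have h4 : -(c - 1) - 1 = -c := by ring
    rw [h4]
    field_simp
  have := intervalIntegral.integrableOn_deriv_of_nonneg hcont hder (fun s hs => by
    have h1 := neglog_pos hs.1 (hs.2.trans hb1)
    have h2 := (rpow_pos_of_pos h1 (-c)).le
    have h3 := inv_nonneg.mpr hs.1.le
    positivity)
  exact this.mono_set Ioo_subset_Ioc_self

lemma intB {β : ℝ} (hβ : 0 < β) (hm : m ≠ 0) (h : 1 < β * (m + 1)) :
    IntegrableOn (fun y : Fin m → ℝ => (Lam β ‖y‖)⁻¹ ^ m * (2 * rho β ‖y‖))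
      (Metric.ball 0 (bb β)) := by
  obtain ⟨k, rfl⟩ := Nat.exists_eq_succ_of_ne_zero hm
  have h1 := integrable_1d (bb_pos β) (bb_lt_one hβ) h
  have h2 := (integrableOn_fun_norm_addHaar (E := Fin (k + 1) → ℝ) volume
    (f := fun s => (Lam β s)⁻¹ ^ (k + 1) * (2 * rho β s)) (r := bb β)).2
  refine h2 ?_
  have h1' : IntegrableOn (fun s : ℝ => 2 * (s⁻¹ * (-log s) ^ (-(β * (((k + 1 : ℕ) : ℝ) + 1)))))
      (Ioo 0 (bb β)) := h1.const_mul 2
  refine h1'.congr_fun (fun s hs => ?_) measurableSet_Ioo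
  have h3 := neglog_pos hs.1 (hs.2.trans (bb_lt_one hβ))
  simp only [Module.finrank_fintype_fun_eq_card, Fintype.card_fin, Nat.add_sub_cancel, smul_eq_mul]
  unfold Lam rho
  have h4 : (-log s) ^ (-(β * (((k + 1 : ℕ) : ℝ) + 1))) = (((-log s) ^ β) ^ (k + 2))⁻¹ := by
    rw [rpow_neg h3.le, rpow_mul h3.le]
    congr 1
    rw [← rpow_natCast]
    congr 1
    push_cast; ring
  rw [h4, rpow_neg h3.le]
  have h5 : 0 < (-log s) ^ β := rpow_pos_of_pos h3 _
  have h6 := hs.1
  rw [inv_pow, mul_pow]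
  field_simp
  ring

lemma measurable_EE (β : ℝ) : Measurable (EE β) := by
  unfold EE
  exact Measurable.ite measurableSet_Ioi (by fun_prop) measurable_const

lemma measurable_EEd (β : ℝ) : Measurable (EEd β) := by
  unfold EEd
  have := measurable_EE β
  fun_prop

lemma measurable_Lam (β : ℝ) : Measurable (Lam β) := by
  unfold Lam
  fun_prop

lemma EE_div_EEd {β t : ℝ} (hβ : 0 < β) (ht : 0 < t) : EE β t / EEd β t = β * t ^ (1 / β + 1) := by
  unfold EEd
  have h1 := EE_pos (β := β) ht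
  have h2 : 0 < t ^ (1 / β + 1) := rpow_pos_of_pos ht _
  have h3 : -(1 / β) - 1 = -(1 / β + 1) := by ring
  rw [h3, rpow_neg ht.le]
  field_simp

lemma int_prod {β : ℝ} (hβ : 0 < β) (hm : m ≠ 0) (h : 1 < β * (m + 1)) :
    IntegrableOn (fun p : ℝ × (Fin m → ℝ) => (Jl β |p.1| ‖p.2‖)⁻¹ ^ m)
      (Ioo (-aa β) (aa β) ×ˢ Metric.ball 0 (bb β)) (volume.prod volume) := by
  have mE := measurable_EE β
  have mEd := measurable_EEd β
  have mL := measurable_Lam β
  have mA : MeasurableSet {p : ℝ × (Fin m → ℝ) | ‖p.2‖ ≤ EE β |p.1|} :=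
    measurableSet_le (by fun_prop) (by fun_prop)
  have mB : MeasurableSet {p : ℝ × (Fin m → ℝ) | EE β |p.1| < ‖p.2‖} :=
    measurableSet_lt (by fun_prop) (by fun_prop)
  have mJ : Measurable (fun p : ℝ × (Fin m → ℝ) => (Jl β |p.1| ‖p.2‖)⁻¹ ^ m) := by
    unfold Jl
    exact ((Measurable.ite mA (by fun_prop) (by fun_prop)).inv).pow_const m
  refine ⟨mJ.aestronglyMeasurable, ?_⟩
  rw [← Measure.prod_restrict]
  set μ := (volume : Measure ℝ).restrict (Ioo (-aa β) (aa β)) with hμ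
  set ν := (volume : Measure (Fin m → ℝ)).restrict (Metric.ball 0 (bb β)) with hν
  set gA : ℝ × (Fin m → ℝ) → ENNReal := {p : ℝ × (Fin m → ℝ) | ‖p.2‖ ≤ EE β |p.1|}.indicator
    (fun p => ‖(EEd β |p.1|)⁻¹ ^ m‖ₑ) with hgA
  set gB : ℝ × (Fin m → ℝ) → ENNReal := {p : ℝ × (Fin m → ℝ) | EE β |p.1| < ‖p.2‖}.indicator
    (fun p => ‖(Lam β ‖p.2‖)⁻¹ ^ m‖ₑ) with hgB
  have mgA : Measurable gA := Measurable.indicator (by fun_prop) mA
  have mgB : Measurable gB := Measurable.indicator (by fun_prop) mB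
  have hsum : ∀ p : ℝ × (Fin m → ℝ), ‖(Jl β |p.1| ‖p.2‖)⁻¹ ^ m‖ₑ ≤ gA p + gB p := by
    intro p
    unfold Jl
    by_cases h1 : ‖p.2‖ ≤ EE β |p.1|
    · rw [if_pos h1]
      refine le_trans ?_ le_self_add
      rw [hgA, indicator_of_mem (show p ∈ {p : ℝ × (Fin m → ℝ) | ‖p.2‖ ≤ EE β |p.1|} from h1)]
    · rw [if_neg h1]
      refine le_trans ?_ le_add_self
      push Not at h1
      rw [hgB, indicator_of_mem (show p ∈ {p : ℝ × (Fin m → ℝ) | EE β |p.1| < ‖p.2‖} from h1)]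
  have hA : ∫⁻ p, gA p ∂(μ.prod ν) < ⊤ := by
    rw [lintegral_prod _ mgA.aemeasurable]
    have h1 : ∀ t ∈ Ioo (-aa β) (aa β), ∫⁻ y, gA (t, y) ∂ν ≤
        ENNReal.ofReal ((2 * (β * (aa β) ^ (1 / β + 1))) ^ m) := by
      intro t ht
      have ht' : |t| < aa β := abs_lt.mpr ht
      have h2 : ∀ y, gA (t, y) = (Metric.closedBall (0 : Fin m → ℝ) (EE β |t|)).indicator
          (fun _ => ‖(EEd β |t|)⁻¹ ^ m‖ₑ) y := by
        intro y
        simp only [hgA, indicator, mem_ofPred_eq, Metric.mem_closedBall, dist_zero_right]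
      calc ∫⁻ y, gA (t, y) ∂ν ≤ ∫⁻ y, gA (t, y) := by
            rw [hν]; exact setLIntegral_le_lintegral _ _
        _ = ‖(EEd β |t|)⁻¹ ^ m‖ₑ * ENNReal.ofReal ((2 * EE β |t|) ^ m) := by
            simp_rw [h2]
            rw [lintegral_indicator_const Metric.isClosed_closedBall.measurableSet,
              Real.volume_pi_closedBall _ (EE_nonneg _ _), Fintype.card_fin]
        _ = ENNReal.ofReal ((EEd β |t|)⁻¹ ^ m * (2 * EE β |t|) ^ m) := by
            have h3 : 0 ≤ (EEd β |t|)⁻¹ ^ m := by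
              have : 0 ≤ EEd β |t| := by
                unfold EEd
                have h4 := EE_nonneg β |t|
                have h5 := rpow_nonneg (abs_nonneg t) (-(1 / β) - 1)
                positivity
              positivity
            rw [ENNReal.ofReal_mul h3, Real.enorm_eq_ofReal h3]
        _ ≤ _ := by
            refine ENNReal.ofReal_le_ofReal ?_
            rw [← mul_pow]
            have h5 : (EEd β |t|)⁻¹ * (2 * EE β |t|) = 2 * (EE β |t| / EEd β |t|) := by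
              rw [div_eq_mul_inv]; ring
            rw [h5]
            have h6 : EE β |t| / EEd β |t| ≤ β * (aa β) ^ (1 / β + 1) ∧ 0 ≤ EE β |t| / EEd β |t| := by
              rcases eq_or_lt_of_le (abs_nonneg t) with h7 | h7
              · rw [← h7, EE_zero, zero_div]
                have := rpow_nonneg (aa_pos hβ).le (1 / β + 1)
                exact ⟨by positivity, le_rfl⟩
              · rw [EE_div_EEd hβ h7]
                have h8 := rpow_le_rpow h7.le ht'.le (by positivity : 0 ≤ 1 / β + 1)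
                have h9 := rpow_nonneg h7.le (1 / β + 1)
                exact ⟨mul_le_mul_of_nonneg_left h8 hβ.le, by positivity⟩
            exact pow_le_pow_left₀ (by linarith [h6.2]) (by linarith [h6.1]) m
    calc ∫⁻ t, ∫⁻ y, gA (t, y) ∂ν ∂μ ≤
          ∫⁻ t, ENNReal.ofReal ((2 * (β * (aa β) ^ (1 / β + 1))) ^ m) ∂μ := by
          rw [hμ]; exact setLIntegral_mono measurable_const h1
      _ < ⊤ := by
          rw [lintegral_const, hμ, Measure.restrict_apply_univ, Real.volume_Ioo]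
          exact ENNReal.mul_lt_top ENNReal.ofReal_lt_top ENNReal.ofReal_lt_top
  have hB : ∫⁻ p, gB p ∂(μ.prod ν) < ⊤ := by
    rw [lintegral_prod_symm _ mgB.aemeasurable]
    have h1 : ∀ y ∈ Metric.ball (0 : Fin m → ℝ) (bb β), ∫⁻ t, gB (t, y) ∂μ ≤
        ENNReal.ofReal ((Lam β ‖y‖)⁻¹ ^ m * (2 * rho β ‖y‖)) := by
      intro y hy
      rw [Metric.mem_ball, dist_zero_right] at hy
      have hy1 : ‖y‖ < 1 := hy.trans (bb_lt_one hβ)
      rcases eq_or_lt_of_le (norm_nonneg y) with h0 | h0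
      · have h2 : ∀ t, gB (t, y) = 0 := by
          intro t
          rw [hgB, indicator_of_notMem]
          intro h3
          have h4 : EE β |t| < ‖y‖ := h3
          rw [← h0] at h4
          exact absurd h4 (not_lt.mpr (EE_nonneg _ _))
        simp [h2]
      · have h2 : ∀ t, gB (t, y) ≤ (Icc (-rho β ‖y‖) (rho β ‖y‖)).indicator
            (fun _ => ‖(Lam β ‖y‖)⁻¹ ^ m‖ₑ) t := by
          intro t
          by_cases h3 : EE β |t| < ‖y‖
          · have h4 : |t| ≤ rho β ‖y‖ := by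
              refine le_of_EE_le hβ (rho_pos h0 hy1).le ?_
              rw [EE_rho hβ h0 hy1]; exact h3.le
            rw [indicator_of_mem (show t ∈ Icc (-rho β ‖y‖) (rho β ‖y‖) from abs_le.mp h4), hgB]
            rw [indicator_of_mem (show (t, y) ∈ {p : ℝ × (Fin m → ℝ) | EE β |p.1| < ‖p.2‖} from h3)]
          · rw [hgB, indicator_of_notMem (show (t, y) ∉ {p : ℝ × (Fin m → ℝ) | EE β |p.1| < ‖p.2‖} from h3)]
            exact bot_le
        have h3 : 0 ≤ (Lam β ‖y‖)⁻¹ ^ m := by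
          have := Lam_pos (β := β) h0 hy1
          positivity
        calc ∫⁻ t, gB (t, y) ∂μ ≤ ∫⁻ t, gB (t, y) := by
              rw [hμ]; exact setLIntegral_le_lintegral _ _
          _ ≤ ∫⁻ t, (Icc (-rho β ‖y‖) (rho β ‖y‖)).indicator
            (fun _ => ‖(Lam β ‖y‖)⁻¹ ^ m‖ₑ) t := lintegral_mono h2
          _ = ENNReal.ofReal ((Lam β ‖y‖)⁻¹ ^ m * (2 * rho β ‖y‖)) := by
              rw [lintegral_indicator_const measurableSet_Icc, Real.volume_Icc,
                Real.enorm_eq_ofReal h3, ← ENNReal.ofReal_mul h3]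
              congr 2
              ring
    calc ∫⁻ y, ∫⁻ t, gB (t, y) ∂μ ∂ν ≤
          ∫⁻ y, ENNReal.ofReal ((Lam β ‖y‖)⁻¹ ^ m * (2 * rho β ‖y‖)) ∂ν := by
          rw [hν]
          refine setLIntegral_mono' Metric.isOpen_ball.measurableSet h1
      _ < ⊤ := (intB hβ hm h).lintegral_lt_top
  have hfin : ∫⁻ p, ‖(Jl β |p.1| ‖p.2‖)⁻¹ ^ m‖ₑ ∂(μ.prod ν) < ⊤ := by
    calc ∫⁻ p, ‖(Jl β |p.1| ‖p.2‖)⁻¹ ^ m‖ₑ ∂(μ.prod ν) ≤ ∫⁻ p, (gA p + gB p) ∂(μ.prod ν) :=
          lintegral_mono hsum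
      _ = ∫⁻ p, gA p ∂(μ.prod ν) + ∫⁻ p, gB p ∂(μ.prod ν) := lintegral_add_left mgA _
      _ < ⊤ := ENNReal.add_lt_top.mpr ⟨hA, hB⟩
  exact hfin

/-- splitting off the first coordinate -/
noncomputable def spl (m : ℕ) : EuclideanSpace ℝ (Fin (m + 1)) ≃ᵐ ℝ × (Fin m → ℝ) :=
  (MeasurableEquiv.toLp 2 (Fin (m + 1) → ℝ)).symm.trans
    (MeasurableEquiv.piFinSuccAbove (fun _ => ℝ) 0)

lemma spl_apply (x : EuclideanSpace ℝ (Fin (m + 1))) : spl m x = (x 0, tl x) := by
  unfold spl tl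
  refine Prod.ext rfl ?_
  funext j
  rfl

lemma spl_mp : MeasurePreserving (spl m) volume (volume.prod volume) :=
  (volume_preserving_piFinSuccAbove (fun _ : Fin (m + 1) => ℝ) 0).comp
    (EuclideanSpace.volume_preserving_symm_measurableEquiv_toLp (Fin (m + 1)))

lemma int_Src {β : ℝ} (hβ : 0 < β) (hm : m ≠ 0) (h : 1 < β * (m + 1)) :
    IntegrableOn (fun x : EuclideanSpace ℝ (Fin (m + 1)) => (Jl β |x 0| ‖tl x‖)⁻¹ ^ m)
      (Src m β) := by
  have h1 := (spl_mp (m := m)).integrableOn_comp_preimage (spl m).measurableEmbedding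
    (f := fun p : ℝ × (Fin m → ℝ) => (Jl β |p.1| ‖p.2‖)⁻¹ ^ m)
    (s := Ioo (-aa β) (aa β) ×ˢ Metric.ball 0 (bb β))
  have h2 := h1.2 (int_prod hβ hm h)
  have h3 : (spl m) ⁻¹' (Ioo (-aa β) (aa β) ×ˢ Metric.ball 0 (bb β)) = Src m β := by
    ext x
    rw [mem_preimage, spl_apply, Src]
    simp only [mem_prod, mem_Ioo, Metric.mem_ball, dist_zero_right, mem_ofPred_eq, abs_lt]
  rw [h3] at h2
  refine h2.congr_fun (fun x _ => ?_) (isOpen_Src β).measurableSet
  show (Jl β |(spl m x).1| ‖(spl m x).2‖)⁻¹ ^ m = _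
  rw [spl_apply]

end Pool.Agent.X100.LogMod
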