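import Mathlib
import Pool.Agent.X100.LogMod.Integ

set_option autoImplicit false

open Real Set Filter Topology MeasureTheory

namespace Pool.Agent.X100.LogMod

variable {m : ℕ}

lemma measurable_distortion {n : ℕ} : Measurable (distortion (n := n)) := by
  have h1 : Measurable (fun A : EuclideanSpace ℝ (Fin n) →L[ℝ] EuclideanSpace ℝ (Fin n) => A.det) :=
    ContinuousLinearMap.continuous_det.measurable
  unfold distortion
  exact Measurable.ite (measurableSet_lt measurable_const h1) (by fun_prop) measurable_const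

lemma ae_det {β : ℝ} (hβ : 0 < β) : ∀ᵐ x ∂(volume.restrict (Src m β)),
    (fderiv ℝ (FF m β) x).det = Jl β |x 0| ‖tl x‖ ∧ 0 < Jl β |x 0| ‖tl x‖ := by
  obtain ⟨C, hC⟩ := FF_lip (m := m) hβ
  have h0 : ∀ᵐ x : EuclideanSpace ℝ (Fin (m + 1)), x ≠ 0 := by
    rw [ae_iff]
    have : {a : EuclideanSpace ℝ (Fin (m + 1)) | ¬ a ≠ 0} = {0} := by
      ext a; simp
    rw [this]
    exact measure_singleton 0
  rw [ae_restrict_iff' (isOpen_Src β).measurableSet]
  filter_upwards [hC.ae_differentiableAt, h0] with x hx hx0 hxS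
  exact ⟨det_FF hβ hxS hx0 hx, Jl_pos hβ (norm_nonneg _) hxS.2 (ne_of_ne_zero hx0)⟩

lemma finiteDistortion_FF {β : ℝ} (hβ : 0 < β) (hm : m ≠ 0) (h : 1 < β * (m + 1)) :
    FiniteDistortion (Src m β) (FF m β) := by
  obtain ⟨C, hC⟩ := FF_lip (m := m) hβ
  have hmeas : Measurable (fderiv ℝ (FF m β)) := measurable_fderiv ℝ (FF m β)
  have hbd : ∀ x, ‖fderiv ℝ (FF m β) x‖ ≤ C := fun x => norm_fderiv_le_of_lipschitz ℝ hC
  have hdist : Measurable (fun x => distortion (fderiv ℝ (FF m β) x)) :=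
    measurable_distortion.comp hmeas
  refine ⟨fderiv ℝ (FF m β), hasWeakDeriv_of_lipschitz hC _, ?_, ?_, ?_⟩
  · obtain ⟨D, hD⟩ := (isCompact_closedBall
      (0 : EuclideanSpace ℝ (Fin (m + 1)) →L[ℝ] EuclideanSpace ℝ (Fin (m + 1)))
      (C : ℝ)).exists_bound_of_continuousOn
      (f := fun A => A.det) ContinuousLinearMap.continuous_det.continuousOn
    have h1 : LocallyIntegrable (fun x => (fderiv ℝ (FF m β) x).det) volume := by
      refine (locallyIntegrable_const D).mono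
        ((ContinuousLinearMap.continuous_det.measurable.comp hmeas)).aestronglyMeasurable
        (ae_of_all _ fun x => ?_)
      refine (hD _ ?_).trans (le_abs_self _)
      rw [mem_closedBall_zero_iff]
      exact hbd x
    exact h1.locallyIntegrableOn _
  · refine ⟨fun x => max 1 (distortion (fderiv ℝ (FF m β) x)), measurable_const.max hdist,
      fun x => le_max_left _ _, ?_⟩
    filter_upwards [ae_det (m := m) hβ] with x hx
    have h1 : 0 < (fderiv ℝ (FF m β) x).det := by rw [hx.1]; exact hx.2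
    have h2 : distortion (fderiv ℝ (FF m β) x) * (fderiv ℝ (FF m β) x).det =
        ‖fderiv ℝ (FF m β) x‖ ^ (m + 1) := by
      unfold distortion
      rw [if_pos h1]
      exact div_mul_cancel₀ _ h1.ne'
    rw [← h2]
    exact mul_le_mul_of_nonneg_right (le_max_right _ _) h1.le
  · rw [Nat.add_sub_cancel]
    refine IntegrableOn.locallyIntegrableOn ?_
    have h1 : IntegrableOn (fun x : EuclideanSpace ℝ (Fin (m + 1)) =>
        (((C : ℝ) ^ (m + 1)) ^ m) * (Jl β |x 0| ‖tl x‖)⁻¹ ^ m) (Src m β) :=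
      (int_Src hβ hm h).const_mul _
    refine h1.mono' (hdist.pow_const m).aestronglyMeasurable ?_
    filter_upwards [ae_det (m := m) hβ] with x hx
    have h2 : 0 < (fderiv ℝ (FF m β) x).det := by rw [hx.1]; exact hx.2
    have h3 : distortion (fderiv ℝ (FF m β) x) =
        ‖fderiv ℝ (FF m β) x‖ ^ (m + 1) * (Jl β |x 0| ‖tl x‖)⁻¹ := by
      unfold distortion
      rw [if_pos h2, hx.1, div_eq_mul_inv]
    have h4 : 0 < (Jl β |x 0| ‖tl x‖)⁻¹ := inv_pos.mpr hx.2
    rw [h3, norm_pow, ← mul_pow, Real.norm_of_nonneg (by positivity)]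
    have h5 : ‖fderiv ℝ (FF m β) x‖ ^ (m + 1) ≤ (C : ℝ) ^ (m + 1) :=
      pow_le_pow_left₀ (norm_nonneg _) (hbd x) _
    exact pow_le_pow_left₀ (by positivity) (mul_le_mul_of_nonneg_right h5 h4.le) m

lemma no_mod {α β C R : ℝ} (hα : 0 < α) (hβα : β < α) (hR : 0 < R)
    (h : ∀ t : ℝ, 0 < t → t < R → rho β t ≤ C * (log (R / t)) ^ (-α)) : False := by
  have h1 : Tendsto (fun u : ℝ => u ^ (α - β)) atTop atTop := tendsto_rpow_atTop (by linarith)
  obtain ⟨u, hu1, hu2, hu3⟩ := ((h1.eventually_gt_atTop (|C| * 2 ^ α)).and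
    ((eventually_gt_atTop (2 * |log R|)).and (eventually_gt_atTop (1 : ℝ)))).exists
  have hu0 : 0 < u := by linarith
  have hR1 : -|log R| ≤ log R := neg_abs_le _
  have ht : exp (-u) < R := by
    rw [← exp_log hR, exp_lt_exp]
    have := abs_nonneg (log R)
    linarith
  have h2 := h (exp (-u)) (exp_pos _) ht
  have h3 : log (R / exp (-u)) = u + log R := by
    rw [log_div hR.ne' (exp_pos _).ne', log_exp]; ring
  have h4 : rho β (exp (-u)) = u ^ (-β) := by
    unfold rho; rw [log_exp, neg_neg]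
  rw [h3, h4] at h2
  have h5 : u / 2 ≤ u + log R := by linarith
  have h6 : (u + log R) ^ (-α) ≤ (u / 2) ^ (-α) :=
    rpow_le_rpow_of_nonpos (by linarith) h5 (by linarith)
  have h7 : u ^ (-β) ≤ |C| * (u / 2) ^ (-α) := by
    calc u ^ (-β) ≤ C * (u + log R) ^ (-α) := h2
      _ ≤ |C| * (u + log R) ^ (-α) :=
          mul_le_mul_of_nonneg_right (le_abs_self _) (rpow_nonneg (by linarith) _)
      _ ≤ |C| * (u / 2) ^ (-α) := mul_le_mul_of_nonneg_left h6 (abs_nonneg _)
  have h8 : (u / 2) ^ (-α) = u ^ (-α) * 2 ^ α := by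
    rw [div_rpow hu0.le (by norm_num), rpow_neg (by norm_num : (0:ℝ) ≤ 2), div_inv_eq_mul]
  rw [h8] at h7
  have h9 : u ^ (α - β) = u ^ α * u ^ (-β) := by
    rw [← rpow_add hu0]; ring_nf
  have h10 : u ^ α * u ^ (-α) = 1 := by
    rw [← rpow_add hu0, add_neg_cancel, rpow_zero]
  have h11 : 0 < u ^ α := rpow_pos_of_pos hu0 _
  have h12 : u ^ α * u ^ (-β) ≤ u ^ α * (|C| * (u ^ (-α) * 2 ^ α)) :=
    mul_le_mul_of_nonneg_left h7 h11.le
  have h13 : u ^ α * (|C| * (u ^ (-α) * 2 ^ α)) = |C| * 2 ^ α * (u ^ α * u ^ (-α)) := by ring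
  rw [h13, h10, mul_one, ← h9] at h12
  linarith

lemma tl_smul_e0 (t : ℝ) : tl (t • (e0 : EuclideanSpace ℝ (Fin (m + 1)))) = 0 := by
  funext i
  simp [tl, e0_succ]

lemma not_admissible {α β : ℝ} (hβ : 0 < β) (hm : m ≠ 0) (h : 1 < β * (m + 1)) (hβα : β < α) :
    ¬ Admissible (m + 1) α := by
  rintro ⟨hα, hadm⟩
  obtain ⟨C, hC⟩ := hadm (PH m hβ) (finiteDistortion_FF hβ hm h) 0 (bb β / 2)
    (by have := bb_pos β; positivity) (by
      intro x hx
      rw [mem_closedBall_zero_iff] at hx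
      have := bb_pos β
      exact ⟨(abs_zero_le x).trans_lt (by linarith), (norm_tl_le x).trans_lt (by linarith)⟩)
  refine no_mod (R := bb β / 2) (C := C) hα hβα (by have := bb_pos β; positivity)
    fun t ht0 ht => ?_
  have hb := bb_pos β
  have hb1 := bb_lt_one hβ
  have hn : ‖t • (e0 : EuclideanSpace ℝ (Fin (m + 1)))‖ = t := by
    rw [norm_smul, norm_e0, mul_one, Real.norm_of_nonneg ht0.le]
  have h1 := hC (t • e0) (by rw [mem_ball_zero_iff, hn]; exact ht) (by
    intro h0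
    rw [h0, norm_zero] at hn
    linarith)
  rw [sub_zero, hn] at h1
  refine le_trans ?_ h1
  have h2 : (PH m hβ).symm (t • e0) - (PH m hβ).symm 0 = GG m β (t • e0) - GG m β 0 := rfl
  have h3 : GG m β 0 = 0 := by
    refine ext_tl ?_ ?_
    · rw [GG_zero]; simp [H]
    · rw [tl_GG]
  rw [h2, h3, sub_zero]
  refine le_trans ?_ (abs_zero_le _)
  have h4 : (t • (e0 : EuclideanSpace ℝ (Fin (m + 1)))) 0 = t := by simp [e0_zero]
  rw [GG_zero, tl_smul_e0, norm_zero, h4]
  have h5 : H β t 0 = rho β t := by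
    unfold H
    rw [abs_of_pos ht0, max_eq_left ht0.le]
    have h6 := Lam_pos (β := β) ht0 (by linarith : t < 1)
    rw [div_eq_iff h6.ne', rho_mul_Lam ht0 (by linarith)]
  rw [h5]
  exact le_abs_self _

theorem main (n : ℕ) (hn : 2 ≤ n) (α : ℝ) (h : Admissible n α) : α ≤ 1 / n := by
  obtain ⟨m, rfl⟩ : ∃ m, n = m + 1 := ⟨n - 1, by omega⟩
  by_contra hcon
  push Not at hcon
  have hm : (0 : ℝ) < (m + 1 : ℕ) := by positivity
  have h1 : 0 < 1 / ((m + 1 : ℕ) : ℝ) := by positivity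
  refine not_admissible (m := m) (β := (1 / ((m + 1 : ℕ) : ℝ) + α) / 2) (α := α) (by linarith)
    (by omega) ?_ (by linarith) h
  have h2 : 1 / ((m + 1 : ℕ) : ℝ) * ((m + 1 : ℕ) : ℝ) = 1 := by field_simp
  have h3 : 1 / ((m + 1 : ℕ) : ℝ) < (1 / ((m + 1 : ℕ) : ℝ) + α) / 2 := by linarith
  have h4 := mul_lt_mul_of_pos_right h3 hm
  rw [h2] at h4
  push_cast at h4 ⊢
  exact h4

end Pool.Agent.X100.LogMod
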